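import Mathlib
import Pool.Agent.Helper208.Rainbow.Main

set_option autoImplicit false

open Finset

namespace Pool.Agent.Results.MP_85f9db_co.BoundedExcess

/-- The walk `p` is a rainbow path for the edge colouring `col`: it is a path and no two of its
edges receive the same colour. -/
def IsRainbowPath {V : Type} {G : SimpleGraph V} (col : Sym2 V → ℕ) {u v : V}
    (p : G.Walk u v) : Prop :=
  p.IsPath ∧ (p.edges.map col).Nodup

/-- Every two vertices are joined by a rainbow path. -/
def RainbowConnected {V : Type} (G : SimpleGraph V) (col : Sym2 V → ℕ) : Prop :=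
  ∀ u v : V, ∃ p : G.Walk u v, IsRainbowPath col p

/-- The rainbow connection number: the least `k` such that the edges of `G` can be coloured with
the `k` colours `0, …, k - 1` so that `G` is rainbow connected. -/
noncomputable def rc {V : Type} (G : SimpleGraph V) : ℕ :=
  sInf {k : ℕ | ∃ col : Sym2 V → ℕ, (∀ e ∈ G.edgeSet, col e < k) ∧ RainbowConnected G col}

/-- a colouring in which nonadjacent vertices have a common neighbour with two colours is a
rainbow connection colouring with two colours -/
lemma upper {V : Type} (G : SimpleGraph V) (col : Sym2 V → Bool)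
    (h : ∀ u v, u ≠ v → ¬ G.Adj u v → ∃ w, G.Adj u w ∧ G.Adj v w ∧ col s(u, w) ≠ col s(v, w)) :
    2 ∈ {k : ℕ | ∃ col : Sym2 V → ℕ, (∀ e ∈ G.edgeSet, col e < k) ∧ RainbowConnected G col} := by
  refine ⟨fun e => if col e then 1 else 0, ?_, ?_⟩
  · intro e _
    simp only
    split_ifs <;> norm_num
  · intro u v
    by_cases huv : u = v
    · subst huv
      exact ⟨SimpleGraph.Walk.nil, by simp, by simp⟩
    · by_cases hadj : G.Adj u v
      · refine ⟨SimpleGraph.Walk.cons hadj SimpleGraph.Walk.nil, ?_, by simp⟩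
        simp [SimpleGraph.Walk.cons_isPath_iff, huv]
      · obtain ⟨w, h1, h2, h3⟩ := h u v huv hadj
        refine ⟨SimpleGraph.Walk.cons h1 (SimpleGraph.Walk.cons h2.symm SimpleGraph.Walk.nil),
          ?_, ?_⟩
        · simp [SimpleGraph.Walk.cons_isPath_iff, huv, h1.ne, h2.ne']
        · have h4 : s(w, v) = s(v, w) := Sym2.eq_swap
          simp only [SimpleGraph.Walk.edges_cons, SimpleGraph.Walk.edges_nil, List.map_cons,
            List.map_nil, List.nodup_cons, List.mem_singleton, List.not_mem_nil,
            not_false_eq_true, List.nodup_nil, and_true]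
          rw [h4]
          revert h3
          cases col s(u, w) <;> cases col s(v, w) <;> simp

/-- one colour is not enough for a graph that is not complete -/
lemma lower {V : Type} (G : SimpleGraph V) (hG : G ≠ ⊤) (k : ℕ)
    (hk : k ∈ {k : ℕ | ∃ col : Sym2 V → ℕ, (∀ e ∈ G.edgeSet, col e < k) ∧
      RainbowConnected G col}) : 2 ≤ k := by
  obtain ⟨col, hcol, hrc⟩ := hk
  by_contra hlt
  have hex : ∃ u v : V, u ≠ v ∧ ¬ G.Adj u v := by
    by_contra hcon
    push Not at hcon
    apply hG
    ext u v
    rw [SimpleGraph.top_adj]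
    exact ⟨fun h => h.ne, fun h => hcon u v h⟩
  obtain ⟨u, v, huv, hadj⟩ := hex
  obtain ⟨p, -, hp⟩ := hrc u v
  cases p with
  | nil => exact huv rfl
  | cons h1 p =>
    cases p with
    | nil => exact hadj h1
    | cons h2 p =>
      rw [SimpleGraph.Walk.edges_cons, SimpleGraph.Walk.edges_cons, List.map_cons, List.map_cons,
        List.nodup_cons] at hp
      apply hp.1
      have e1 := hcol _ ((SimpleGraph.mem_edgeSet G).mpr h1)
      have e2 := hcol _ ((SimpleGraph.mem_edgeSet G).mpr h2)
      rw [List.mem_cons]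
      left
      omega

lemma nb_card {V : Type} [Fintype V] [DecidableEq V] (G : SimpleGraph V) [DecidableRel G.Adj]
    (u : V) : (Pool.Agent.Helper208.Rainbow.nb G u).card = G.degree u := by
  rw [← SimpleGraph.card_neighborFinset_eq_degree]
  congr 1
  ext w
  simp [Pool.Agent.Helper208.Rainbow.nb]

theorem codegree_version {V : Type} [Fintype V] (G : SimpleGraph V) [DecidableRel G.Adj]
    (hG : G ≠ ⊤) (hmin : Fintype.card V ≤ 2 * G.minDegree)
    (hco : ∀ u v : V, u ≠ v → ¬ G.Adj u v → 2 ^ 29 ≤ (G.commonNeighbors u v).ncard) :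
    rc G = 2 := by
  classical
  have hdeg : ∀ u, Fintype.card V ≤ 2 * (Pool.Agent.Helper208.Rainbow.nb G u).card := by
    intro u
    rw [nb_card]
    have := G.minDegree_le_degree u
    omega
  have : Nonempty V := by
    by_contra hcon
    rw [not_nonempty_iff] at hcon
    apply hG
    ext u
    exact (hcon.false u).elim
  obtain ⟨col, hcol⟩ := Pool.Agent.Helper208.Rainbow.colouring_exists (G := G) hdeg (by
    intro u v huv hadj
    refine le_trans (hco u v huv hadj) ?_
    unfold Pool.Agent.Helper208.Rainbow.t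
    rw [← Set.ncard_coe_finset]
    apply le_of_eq
    congr 1
    ext w
    simp [SimpleGraph.mem_commonNeighbors, Pool.Agent.Helper208.Rainbow.W])
  exact le_antisymm (Nat.sInf_le (upper G col hcol))
    (le_csInf ⟨2, upper G col hcol⟩ (fun k hk => lower G hG k hk))

theorem result :
    (∀ (V : Type) [Fintype V] (G : SimpleGraph V) [DecidableRel G.Adj], G ≠ ⊤ →
      Fintype.card V ≤ 2 * G.minDegree →
      (∀ u v : V, u ≠ v → ¬ G.Adj u v → 2 ^ 29 ≤ (G.commonNeighbors u v).ncard) → rc G = 2) ∧
    (∀ (V : Type) [Fintype V] (G : SimpleGraph V) [DecidableRel G.Adj], G ≠ ⊤ →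
      (Fintype.card V : ℝ) / 2 + 2 ^ 28 ≤ G.minDegree → rc G = 2) := by
  classical
  refine ⟨fun V _ G _ hG hmin hco => codegree_version G hG hmin hco, ?_⟩
  intro V _ G _ hG hmin
  have hminN : Fintype.card V + 2 ^ 29 ≤ 2 * G.minDegree := by
    have h1 : (Fintype.card V : ℝ) + 2 ^ 29 ≤ 2 * G.minDegree := by
      have h2 : (2 : ℝ) ^ 29 = 2 * 2 ^ 28 := by norm_num
      rw [h2]
      linarith
    exact_mod_cast h1
  have hdeg : ∀ u, Fintype.card V + 2 ^ 29 ≤ 2 * (Pool.Agent.Helper208.Rainbow.nb G u).card := by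
    intro u
    rw [nb_card]
    have := G.minDegree_le_degree u
    omega
  apply codegree_version G hG (by omega)
  intro u v huv hadj
  have h0 : (G.commonNeighbors u v).ncard = (Pool.Agent.Helper208.Rainbow.W G u v).card := by
    rw [← Set.ncard_coe_finset]
    congr 1
    ext w
    simp [SimpleGraph.mem_commonNeighbors, Pool.Agent.Helper208.Rainbow.W]
  rw [h0]
  have h1 := card_union_add_card_inter (Pool.Agent.Helper208.Rainbow.nb G u)
    (Pool.Agent.Helper208.Rainbow.nb G v)
  rw [← Pool.Agent.Helper208.Rainbow.W_eq] at h1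
  have h2 := hdeg u
  have h3 := hdeg v
  have h5 : (Pool.Agent.Helper208.Rainbow.nb G u ∪
      Pool.Agent.Helper208.Rainbow.nb G v).card ≤ Fintype.card V := card_le_univ _
  omega

end Pool.Agent.Results.MP_85f9db_co.BoundedExcess
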